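import Pool.Agent.Helper58C.Num
import Pool.Agent.Helper58C.FormD

/-!
# Circuits, formulas and determinants for the multilinear extension of `#SAT`

Fix a finite set `𝒞` of clauses on `n` boolean variables.  A formula with clauses in `𝒞` is a
subset of `𝒞`, i.e. a point of `{0, 1} ^ 𝒞`, and the number of its satisfying assignments
has a unique multilinear extension to `ℂ ^ 𝒞`, a polynomial of degree at most one in each of
the `N = |𝒞|` variables.

For every `k ≥ 2` there is `c > 0` such that for all large `n` and every `𝒞` that contains all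
clauses with `k` unnegated variables:

* every arithmetic circuit for this polynomial uses at least `c n ^ k log n` multiplications;
  linear operations are free;
* every formula with gates `+`, `×`, `÷` for this polynomial has at least
  `c n ^ (2 k) / log n` leaves labelled by variables; constants are free;
* in every square matrix of affine forms whose determinant is this polynomial there are at
  least `c n ^ (3 k / 2) / log n` occurrences of variables.

The same holds if the circuits, the formulas, the determinants only approximate the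
polynomial, i.e. for limits.  If `𝒞` consists of these clauses, or of all clauses with `k`
literals, then `N` is of order `n ^ k` and the bounds are of order `N log N`, `N ^ 2 / log N` and
`N ^ (3 / 2) / log N`.

The proof for circuits counts nondegenerate critical points: an affine substitution turns the
polynomial into (a small perturbation of) a sum of `q ^ (k-1)` elementary symmetric polynomials
in disjoint sets of `2 q` variables, `q` of order `n`, which has at least
`q! ^ (2 q ^ (k-1))` nondegenerate critical points.  The proof for formulas and determinants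
takes disjoint blocks of order `log n` clauses each that contain a positive fraction of the
clauses with `k` unnegated variables.  For each block there are of order `n ^ k` derivatives of
the polynomial, with respect to variables outside of the block, which are linearly independent
as polynomials in the variables of the block, at a suitable point for all other variables.
-/

set_option autoImplicit false

namespace Pool.Agent.Results.MP_4ed1f9_lc.MultilinearExtension

open MvPolynomial Filter Topology

/-- A clause on the variables `x_i`, `i < n`: a finite set of literals.  The literal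
`(i, true)` is `x_i` and the literal `(i, false)` is its negation. -/
abbrev Clause (n : ℕ) : Type := Finset (Fin n × Bool)

/-- The assignment `a` makes a literal of the clause `C` true. -/
def Holds {n : ℕ} (C : Clause n) (a : Fin n → Bool) : Prop := ∃ l ∈ C, a l.1 = l.2

open Classical in
/-- The number of the assignments of the `n` variables that satisfy all clauses in `Φ`. -/
noncomputable def numSat {n : ℕ} (Φ : Finset (Clause n)) : ℕ :=
  (Finset.univ.filter (fun a : Fin n → Bool => ∀ C ∈ Φ, Holds C a)).card

/-- The clause that consists of the unnegated variables in `K`. -/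
def posClause {n : ℕ} (K : Finset (Fin n)) : Clause n := K.image (fun i => (i, true))

/-- `f` is a multilinear extension of the counting function on the formulas with clauses
in `𝒞`: it has degree at most one in each variable, and its value at the indicator vector of
a set `Φ` of clauses in `𝒞` is the number of satisfying assignments of `Φ`. -/
def IsExtension {n : ℕ} (𝒞 : Finset (Clause n)) (f : MvPolynomial 𝒞 ℂ) : Prop :=
  (∀ C : 𝒞, f.degreeOf C ≤ 1) ∧
    ∀ Φ : Finset (Clause n), Φ ⊆ 𝒞 →
      eval (fun C : 𝒞 => if C.1 ∈ Φ then (1 : ℂ) else 0) f = numSat Φ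

/-- `g 0, …, g (s-1)` is a computation over `ℂ` in which only the steps in `P` are products of
two earlier results; every other step is free: a constant plus an arbitrary linear
combination of the variables and of earlier results. -/
def Computation {σ : Type} [Fintype σ] {s : ℕ} (P : Finset (Fin s))
    (g : Fin s → MvPolynomial σ ℂ) : Prop :=
  ∀ i : Fin s,
    (i ∈ P → ∃ a b : Fin s, a < i ∧ b < i ∧ g i = g a * g b) ∧
    (i ∉ P → ∃ (c : ℂ) (l : σ → ℂ) (a : Fin s → ℂ), (∀ j, ¬ j < i → a j = 0) ∧
      g i = C c + ∑ v, C (l v) * X v + ∑ j, C (a j) * g j)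

/-- `f` is computed with at most `p` multiplications. -/
def Computable {σ : Type} [Fintype σ] (f : MvPolynomial σ ℂ) (p : ℕ) : Prop :=
  ∃ (s : ℕ) (P : Finset (Fin s)) (g : Fin s → MvPolynomial σ ℂ) (out : Fin s),
    Computation P g ∧ P.card ≤ p ∧ g out = f

/-- `f` is the limit (coefficient by coefficient) of a sequence of polynomials that are
computed with at most `p` multiplications each. -/
def Approximable {σ : Type} [Fintype σ] (f : MvPolynomial σ ℂ) (p : ℕ) : Prop :=
  ∃ F : ℕ → MvPolynomial σ ℂ, (∀ t, Computable (F t) p) ∧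
    ∀ μ, Tendsto (fun t => coeff μ (F t)) atTop (𝓝 (coeff μ f))

/-- Arithmetic formulas over `ℂ` in the variables `σ`, with gates `+`, `×`, `÷` of fan-in two
and leaves labelled by variables or by constants. -/
inductive Formula (σ : Type) : Type
  | var (v : σ) : Formula σ
  | const (c : ℂ) : Formula σ
  | add (F G : Formula σ) : Formula σ
  | mul (F G : Formula σ) : Formula σ
  | div (F G : Formula σ) : Formula σ

/-- The rational function computed by a formula (a quotient by `0` is read as `0`). -/
noncomputable def Formula.value {σ : Type} : Formula σ → FractionRing (MvPolynomial σ ℂ)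
  | .var v => algebraMap (MvPolynomial σ ℂ) (FractionRing (MvPolynomial σ ℂ)) (X v)
  | .const c => algebraMap (MvPolynomial σ ℂ) (FractionRing (MvPolynomial σ ℂ)) (C c)
  | .add F G => F.value + G.value
  | .mul F G => F.value * G.value
  | .div F G => F.value / G.value

/-- The number of leaves labelled by variables. -/
def Formula.size {σ : Type} : Formula σ → ℕ
  | .var _ => 1
  | .const _ => 0
  | .add F G => F.size + G.size
  | .mul F G => F.size + G.size
  | .div F G => F.size + G.size

/-- `f` is the value of a formula with at most `s` leaves labelled by variables. -/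
def HasFormula {σ : Type} (f : MvPolynomial σ ℂ) (s : ℕ) : Prop :=
  ∃ F : Formula σ, F.value = algebraMap _ _ f ∧ F.size ≤ s

/-- `f` is the determinant of a square matrix of polynomials of degree at most one in which
there are at most `s` occurrences of variables, i.e. pairs of an entry and a variable that
occurs in this entry. -/
def HasDet {σ : Type} (f : MvPolynomial σ ℂ) (s : ℕ) : Prop :=
  ∃ (N : ℕ) (M : Matrix (Fin N) (Fin N) (MvPolynomial σ ℂ)),
    (∀ i j, (M i j).totalDegree ≤ 1) ∧ M.det = f ∧ ∑ i, ∑ j, (M i j).vars.card ≤ s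

/-- `f` is the limit (coefficient by coefficient) of a sequence of polynomials with the
property `P`. -/
def IsLimit {σ : Type} (P : MvPolynomial σ ℂ → Prop) (f : MvPolynomial σ ℂ) : Prop :=
  ∃ F : ℕ → MvPolynomial σ ℂ, (∀ t, P (F t)) ∧
    ∀ μ, Tendsto (fun t => coeff μ (F t)) atTop (𝓝 (coeff μ f))

/-! ### The extension -/

section

variable {n : ℕ}

open Classical in
/-- The extension. -/
noncomputable def ext (𝒞 : Finset (Clause n)) : MvPolynomial 𝒞 ℂ :=
  ∑ a : Fin n → Bool, ∏ C : 𝒞, if Holds C.1 a then 1 else 1 - X C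

theorem degreeOf_factor (𝒞 : Finset (Clause n)) (a : Fin n → Bool) (C D : 𝒞) [Decidable (Holds D.1 a)] :
    ((if Holds D.1 a then 1 else 1 - X D : MvPolynomial 𝒞 ℂ)).degreeOf C ≤
      if C = D then 1 else 0 := by
  split_ifs with h1 h2 h2
  · rw [degreeOf_one]; omega
  · rw [degreeOf_one]
  · subst h2
    refine (degreeOf_sub_le _ _ _).trans ?_
    rw [degreeOf_one, degreeOf_X, if_pos rfl]
    simp
  · refine (degreeOf_sub_le _ _ _).trans ?_
    rw [degreeOf_one, degreeOf_X, if_neg h2]
    simp

theorem ext_isExtension (𝒞 : Finset (Clause n)) : IsExtension 𝒞 (ext 𝒞) := by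
  classical
  refine ⟨fun C => ?_, fun Φ hΦ => ?_⟩
  · unfold ext
    refine (degreeOf_sum_le _ _ _).trans (Finset.sup_le fun a _ => ?_)
    refine (degreeOf_prod_le _ _ _).trans ?_
    refine (Finset.sum_le_sum (fun D _ => degreeOf_factor 𝒞 a C D)).trans ?_
    simp
  · unfold ext numSat
    rw [map_sum]
    rw [Finset.card_filter, Nat.cast_sum]
    refine Finset.sum_congr rfl fun a _ => ?_
    rw [map_prod]
    split_ifs with h
    · rw [Nat.cast_one]
      refine Finset.prod_eq_one fun C _ => ?_
      split_ifs with h1
      · simp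
      · have : C.1 ∉ Φ := fun hC => h1 (h C.1 hC)
        simp [this]
    · push Not at h
      obtain ⟨C, hC, h1⟩ := h
      rw [Nat.cast_zero]
      refine Finset.prod_eq_zero (Finset.mem_univ (⟨C, hΦ hC⟩ : 𝒞)) ?_
      simp [h1, hC]

theorem isExtension_unique (𝒞 : Finset (Clause n)) {f h : MvPolynomial 𝒞 ℂ}
    (hf : IsExtension 𝒞 f) (hh : IsExtension 𝒞 h) : f = h := by
  classical
  rw [← sub_eq_zero]
  refine MvPolynomial.eq_zero_of_eval_zero_at_prod_finset (f - h) (fun _ => {0, 1}) ?_ ?_
  · intro C
    refine lt_of_le_of_lt (degreeOf_sub_le _ _ _) ?_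
    have h1 := hf.1 C
    have h2 := hh.1 C
    have h3 : ({0, 1} : Finset ℂ).card = 2 := by
      rw [Finset.card_pair]; norm_num
    rw [h3]
    omega
  · intro x hx
    set Φ : Finset (Clause n) := 𝒞.attach.filter (fun C => x C = 1) |>.map
      (Function.Embedding.subtype _) with hΦ
    have hΦs : Φ ⊆ 𝒞 := by
      intro C hC
      rw [hΦ, Finset.mem_map] at hC
      obtain ⟨D, _, rfl⟩ := hC
      exact D.2
    have hx' : x = fun C : 𝒞 => if C.1 ∈ Φ then (1 : ℂ) else 0 := by
      funext C
      have h1 : C.1 ∈ Φ ↔ x C = 1 := by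
        rw [hΦ, Finset.mem_map]
        constructor
        · rintro ⟨D, hD, hDC⟩
          rw [Finset.mem_filter] at hD
          have : D = C := Subtype.ext hDC
          rw [← this]
          exact hD.2
        · intro h
          exact ⟨C, Finset.mem_filter.2 ⟨Finset.mem_attach _ _, h⟩, rfl⟩
      have h2 := hx C
      rw [Finset.mem_insert, Finset.mem_singleton] at h2
      rcases h2 with h2 | h2
      · rw [if_neg, h2]
        rw [h1, h2]
        norm_num
      · rw [if_pos (h1.2 h2), h2]
    rw [map_sub, hx', hf.2 Φ hΦs, hh.2 Φ hΦs, sub_self]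

open Classical in
/-- The affine substitution that leads to the weighted sum over the sets of false
variables. -/
noncomputable def lam (k : ℕ) (𝒞 : Finset (Clause n)) (D : 𝒞) :
    MvPolynomial (H58C.KSet n k) ℂ :=
  ∑ K : H58C.KSet n k, if D.1 = posClause K.1 then 1 - X K else 0

theorem posClause_injective : Function.Injective (posClause (n := n)) := by
  intro K L h
  unfold posClause at h
  exact Finset.image_injective (fun i j hij => (Prod.mk.inj hij).1) h

theorem not_holds_posClause (K : Finset (Fin n)) (a : Fin n → Bool) :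
    ¬ Holds (posClause K) a ↔ K ⊆ Finset.univ.filter (fun i => a i = false) := by
  unfold Holds posClause
  constructor
  · intro h i hi
    rw [Finset.mem_filter]
    refine ⟨Finset.mem_univ _, ?_⟩
    by_contra h1
    rw [Bool.not_eq_false] at h1
    exact h ⟨(i, true), Finset.mem_image.2 ⟨i, hi, rfl⟩, h1⟩
  · rintro h ⟨l, hl, h1⟩
    obtain ⟨i, hi, rfl⟩ := Finset.mem_image.1 hl
    have := (Finset.mem_filter.1 (h hi)).2
    rw [this] at h1
    cases h1

theorem lam_pos (k : ℕ) (𝒞 : Finset (Clause n)) (K : H58C.KSet n k) (h : posClause K.1 ∈ 𝒞) :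
    lam k 𝒞 ⟨posClause K.1, h⟩ = 1 - X K := by
  classical
  unfold lam
  rw [Finset.sum_eq_single K]
  · rw [if_pos rfl]
  · intro L _ hL
    rw [if_neg]
    intro h1
    exact hL (Subtype.ext (posClause_injective h1.symm))
  · intro h1
    exact absurd (Finset.mem_univ _) h1

theorem lam_other (k : ℕ) (𝒞 : Finset (Clause n)) (D : 𝒞)
    (h : ∀ K : H58C.KSet n k, D.1 ≠ posClause K.1) : lam k 𝒞 D = 0 := by
  unfold lam
  exact Finset.sum_eq_zero fun K _ => if_neg (h K)

/-- The sets of the false variables. -/
def falseSet : (Fin n → Bool) ≃ Finset (Fin n) where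
  toFun a := Finset.univ.filter (fun i => a i = false)
  invFun S i := !decide (i ∈ S)
  left_inv a := by
    funext i
    simp
  right_inv S := by
    ext i
    simp

theorem aeval_lam_ext (k : ℕ) (𝒞 : Finset (Clause n))
    (h𝒞 : ∀ K : Finset (Fin n), K.card = k → posClause K ∈ 𝒞) :
    aeval (lam k 𝒞) (ext 𝒞) = H58C.wPoly n k := by
  classical
  unfold ext H58C.wPoly
  rw [map_sum]
  refine Fintype.sum_equiv falseSet _ _ fun a => ?_
  rw [map_prod]
  symm
  refine Fintype.prod_of_injective (fun K : H58C.KSet n k => (⟨posClause K.1, h𝒞 K.1 K.2⟩ : 𝒞))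
    (fun K L h => Subtype.ext (posClause_injective (congrArg Subtype.val h))) _ _ ?_ ?_
  · intro D hD
    have hD' : ∀ K : H58C.KSet n k, D.1 ≠ posClause K.1 := by
      intro K h
      exact hD ⟨K, Subtype.ext h.symm⟩
    split_ifs
    · rw [map_one]
    · rw [map_sub, map_one, aeval_X, lam_other k 𝒞 D hD', sub_zero]
  · intro K
    have h1 := not_holds_posClause K.1 a
    by_cases h2 : Holds (posClause K.1) a
    · have h3 : ¬ K.1 ⊆ falseSet a := fun h => (h1.2 h) h2
      rw [if_neg h3, if_pos h2, map_one]
    · have h3 : K.1 ⊆ falseSet a := h1.1 h2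
      rw [if_pos h3, if_neg h2, map_sub, map_one, aeval_X, lam_pos]
      ring

theorem isAff_lam (k : ℕ) (𝒞 : Finset (Clause n)) (D : 𝒞) : H1CL.IsAff (lam k 𝒞 D) := by
  classical
  by_cases h : ∃ K : H58C.KSet n k, D.1 = posClause K.1
  · obtain ⟨K, hK⟩ := h
    have h1 : D = ⟨posClause K.1, hK ▸ D.2⟩ := Subtype.ext hK
    rw [h1, lam_pos]
    refine ⟨1, fun v => if v = K then -1 else 0, ?_⟩
    rw [Finset.sum_eq_single K]
    · simp [sub_eq_add_neg]
    · intro v _ hv
      simp [hv]
    · intro h
      exact absurd (Finset.mem_univ _) h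
  · push Not at h
    rw [lam_other k 𝒞 D h]
    exact H1CL.isAff_zero

end

/-! ### Limits of circuits and substitutions -/

theorem Computable.approximable {σ : Type} [Fintype σ] {f : MvPolynomial σ ℂ} {p : ℕ}
    (h : Computable f p) : Approximable f p :=
  ⟨fun _ => f, fun _ => h, fun _ => tendsto_const_nhds⟩

theorem Approximable.border {σ τ : Type} [Fintype σ] [Fintype τ] {f : MvPolynomial σ ℂ} {p : ℕ}
    (h : Approximable f p) (lam : σ → MvPolynomial τ ℂ) (hlam : ∀ v, H1CL.IsAff (lam v)) :
    H58C.BorderComp (aeval lam f) p := by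
  obtain ⟨F, hF, hconv⟩ := h
  choose s P g out hcomp hPc hout using hF
  refine ⟨s, P, fun t i => aeval lam (g t i), out, fun t => ?_, hPc, ?_⟩
  · exact H1CL.IsComp.subst (hcomp t) lam hlam
  · intro ν
    have hdeg : ∀ j, (F j).totalDegree ≤ 2 ^ p := fun j => by
      have hj : H1CL.IsComp (P j) (g j) := hcomp j
      rw [← hout j]
      exact hj.totalDegree_le' (hPc j) (out j)
    set D : ℕ := max (2 ^ p) f.totalDegree with hD
    have h1 : ∀ h : MvPolynomial σ ℂ, h.totalDegree ≤ D →
        coeff ν (aeval lam h) = ∑ μ ∈ H1CL.degT σ D,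
          coeff μ h * coeff ν (aeval lam (monomial μ (1 : ℂ))) := by
      intro h hh
      rw [H1CL.aeval_eq_sum_degT h hh, coeff_sum]
      simp only [coeff_C_mul]
    rw [h1 f (le_max_right _ _)]
    simp_rw [fun j => hout j]
    simp_rw [fun j => h1 (F j) ((hdeg j).trans (le_max_left _ _))]
    exact tendsto_finsetSum _ (fun μ _ => (hconv μ).mul_const _)

/-! ### Formulas and determinants -/

/-- translation to the library -/
def conv {σ : Type} : Formula σ → H1FS.RFml σ ℂ
  | .var v => .var v
  | .const c => .const c
  | .add F G => .add (conv F) (conv G)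
  | .mul F G => .mul (conv F) (conv G)
  | .div F G => .div (conv F) (conv G)

lemma conv_val {σ : Type} (F : Formula σ) : (conv F).val = F.value := by
  induction F with
  | var v => rfl
  | const c => rfl
  | add F G hF hG => simp only [conv, H1FS.RFml.val, Formula.value, hF, hG]
  | mul F G hF hG => simp only [conv, H1FS.RFml.val, Formula.value, hF, hG]
  | div F G hF hG => simp only [conv, H1FS.RFml.val, Formula.value, hF, hG]

lemma conv_size {σ : Type} (F : Formula σ) : (conv F).size = F.size := by
  induction F with
  | var v => rfl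
  | const c => rfl
  | add F G hF hG => simp only [conv, H1FS.RFml.size, Formula.size, hF, hG]
  | mul F G hF hG => simp only [conv, H1FS.RFml.size, Formula.size, hF, hG]
  | div F G hF hG => simp only [conv, H1FS.RFml.size, Formula.size, hF, hG]

theorem isLimit_of {σ : Type} {P : MvPolynomial σ ℂ → Prop} {f : MvPolynomial σ ℂ} (h : P f) :
    IsLimit P f :=
  ⟨fun _ => f, fun _ => h, fun _ => tendsto_const_nhds⟩

theorem ext_eq_extP {n : ℕ} (𝒞 : Finset (Clause n)) :
    ext 𝒞 = H58C.extP (fun (C : 𝒞) (a : Fin n → Bool) => Holds C.1 a) := rfl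

theorem holds_posClause {n : ℕ} (K : Finset (Fin n)) (a : Fin n → Bool) :
    Holds (posClause K) a ↔ ∃ i ∈ K, a i = true := by
  unfold Holds posClause
  constructor
  · rintro ⟨l, hl, h⟩
    obtain ⟨i, hi, rfl⟩ := Finset.mem_image.1 hl
    exact ⟨i, hi, h⟩
  · rintro ⟨i, hi, h⟩
    exact ⟨(i, true), Finset.mem_image.2 ⟨i, hi, rfl⟩, h⟩

/-- For every `k ≥ 2` there is `c > 0` such that for all large `n` and all finite sets `𝒞` of
clauses on `n` variables that contain the clauses `x_i ∨ … ∨ x_j` with `k` unnegated variables: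
the number of satisfying assignments of the formulas with clauses in `𝒞` has exactly one
multilinear extension `f` to `ℂ ^ 𝒞`, and to compute `f`, and even to approximate `f`, one
needs at least

* `c n ^ k log n` multiplications in circuits,
* `c n ^ (2 k) / log n` variable leaves in formulas with gates `+`, `×`, `÷`,
* `c n ^ (3 k / 2) / log n` occurrences of variables in determinants of affine forms. -/
theorem result (k : ℕ) (hk : 2 ≤ k) :
    ∃ c : ℝ, 0 < c ∧ ∃ n₀ : ℕ, ∀ n : ℕ, n₀ ≤ n →
      ∀ 𝒞 : Finset (Clause n), (∀ K : Finset (Fin n), K.card = k → posClause K ∈ 𝒞) →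
        ∃ f : MvPolynomial 𝒞 ℂ, (∀ h : MvPolynomial 𝒞 ℂ, IsExtension 𝒞 h ↔ h = f) ∧
          (∀ p : ℕ, Computable f p → c * ((n : ℝ) ^ k * Real.log n) ≤ p) ∧
          (∀ p : ℕ, Approximable f p → c * ((n : ℝ) ^ k * Real.log n) ≤ p) ∧
          (∀ s : ℕ, HasFormula f s → c * ((n : ℝ) ^ (2 * k) / Real.log n) ≤ s) ∧
          (∀ s : ℕ, IsLimit (HasFormula · s) f → c * ((n : ℝ) ^ (2 * k) / Real.log n) ≤ s) ∧
          (∀ s : ℕ, HasDet f s →
            c * ((n : ℝ) ^ k * Real.sqrt ((n : ℝ) ^ k) / Real.log n) ≤ s) ∧
          (∀ s : ℕ, IsLimit (HasDet · s) f →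
            c * ((n : ℝ) ^ k * Real.sqrt ((n : ℝ) ^ k) / Real.log n) ≤ s) := by
  classical
  obtain ⟨c₁, hc₁, n₁, hmain⟩ := H58C.main k hk
  obtain ⟨c₂, hc₂, n₂, hform⟩ := H58C.form_main k hk
  refine ⟨min c₁ c₂, lt_min hc₁ hc₂, max n₁ n₂, fun n hn 𝒞 h𝒞 => ⟨ext 𝒞, fun h => ⟨fun hh => ?_, ?_⟩, ?_⟩⟩
  · exact isExtension_unique 𝒞 hh (ext_isExtension 𝒞)
  · rintro rfl
    exact ext_isExtension 𝒞
  have hlog : 0 ≤ Real.log n := Real.log_natCast_nonneg n
  have hcirc : ∀ p : ℕ, Approximable (ext 𝒞) p →
      min c₁ c₂ * ((n : ℝ) ^ k * Real.log n) ≤ p := by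
    intro p hp
    have h1 := hp.border (lam k 𝒞) (isAff_lam k 𝒞)
    rw [aeval_lam_ext k 𝒞 h𝒞] at h1
    refine le_trans ?_ (hmain n ((le_max_left _ _).trans hn) p h1)
    exact mul_le_mul_of_nonneg_right (min_le_left _ _) (by positivity)
  have hboth := hform n ((le_max_right _ _).trans hn)
    (fun K : H58C.KSet n k => (⟨posClause K.1, h𝒞 K.1 K.2⟩ : 𝒞))
    (fun K L h => Subtype.ext (posClause_injective (congrArg Subtype.val h)))
    (fun (C : 𝒞) (a : Fin n → Bool) => Holds C.1 a) (fun K a => holds_posClause K.1 a)
  have hfml : ∀ s : ℕ, IsLimit (HasFormula · s) (ext 𝒞) →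
      min c₁ c₂ * ((n : ℝ) ^ (2 * k) / Real.log n) ≤ s := by
    rintro s ⟨g, hg, hlim⟩
    refine le_trans ?_ ((hboth s g hlim).1 fun t => ?_)
    · exact mul_le_mul_of_nonneg_right (min_le_right _ _) (by positivity)
    · obtain ⟨F, hF, hs⟩ := hg t
      exact ⟨conv F, by rw [conv_val, hF], by rw [conv_size]; exact hs⟩
  have hdet : ∀ s : ℕ, IsLimit (HasDet · s) (ext 𝒞) →
      min c₁ c₂ * ((n : ℝ) ^ k * Real.sqrt ((n : ℝ) ^ k) / Real.log n) ≤ s := by
    rintro s ⟨g, hg, hlim⟩
    refine le_trans ?_ ((hboth s g hlim).2 fun t => hg t)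
    exact mul_le_mul_of_nonneg_right (min_le_right _ _) (by positivity)
  exact ⟨fun p hp => hcirc p hp.approximable, hcirc,
    fun s hs => hfml s (isLimit_of hs), hfml, fun s hs => hdet s (isLimit_of hs), hdet⟩

end Pool.Agent.Results.MP_4ed1f9_lc.MultilinearExtension
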